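import Pool.Agent.N24.RW.Stm

set_option autoImplicit false

/-!
# Random elements of finitely generated subgroups of `SL_ι(ℤ)`: the engine

The analogue for group elements of the engine `Pool.Agent.N24.RW` for vectors (helper24 and others).
-/

namespace Pool.Agent.N475.RG

open MeasureTheory Filter Topology Pool.Agent.N24.RW

variable {ι : Type} [Fintype ι] [DecidableEq ι]

/-- the random products `s_{w (n-1)} ... s_{w 0}` -/
def gel (W : Walk ι) (w : ℕ → Fin (W.m + 1)) : ℕ → Matrix.SpecialLinearGroup ι ℤ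
  | 0 => 1
  | n + 1 => W.s (w n) * gel W w n

/-- reduction modulo `q` -/
def rd (q : ℕ) : Matrix.SpecialLinearGroup ι ℤ →* Matrix.SpecialLinearGroup ι (ZMod q) :=
  Matrix.SpecialLinearGroup.map (Int.castRingHom (ZMod q))

/-- The closure of `B` in the product of the `SL_ι(ℤ_p)` over the primes `p` which do not divide `M`
has Haar measure zero, for all `M`. -/
def GNull (B : Set (Matrix.SpecialLinearGroup ι ℤ)) : Prop :=
  ∀ M : ℕ, 0 < M → ∀ ε : ℝ, 0 < ε → ∃ q : ℕ, 0 < q ∧ q.Coprime M ∧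
    (((rd q '' B).ncard : ℕ) : ℝ) ≤ ε * (Nat.card (Matrix.SpecialLinearGroup ι (ZMod q)) : ℝ)

/-- the Chinese remainder theorem -/
theorem crt2 {q q' : ℕ} (hq : 0 < q) (hq' : 0 < q') (h : q.Coprime q') :
    Nat.card (Matrix.SpecialLinearGroup ι (ZMod (q * q'))) =
      Nat.card (Matrix.SpecialLinearGroup ι (ZMod q)) *
        Nat.card (Matrix.SpecialLinearGroup ι (ZMod q')) ∧
    ∀ B : Set (Matrix.SpecialLinearGroup ι ℤ),
      (rd (q * q') '' B).ncard ≤ (rd q '' B).ncard * (rd q' '' B).ncard := by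
  have n1 : NeZero q := ⟨hq.ne'⟩
  have n2 : NeZero q' := ⟨hq'.ne'⟩
  have n3 : NeZero (q * q') := ⟨(Nat.mul_pos hq hq').ne'⟩
  let e := ZMod.chineseRemainder h
  let f1 : ZMod (q * q') →+* ZMod q := (RingHom.fst _ _).comp e.toRingHom
  let f2 : ZMod (q * q') →+* ZMod q' := (RingHom.snd _ _).comp e.toRingHom
  have he : ∀ a b : ZMod (q * q'), f1 a = f1 b → f2 a = f2 b → a = b := fun a b ha hb =>
    e.injective (Prod.ext ha hb)
  let F : Matrix.SpecialLinearGroup ι (ZMod (q * q')) →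
      Matrix.SpecialLinearGroup ι (ZMod q) × Matrix.SpecialLinearGroup ι (ZMod q') :=
    fun A => (Matrix.SpecialLinearGroup.map f1 A, Matrix.SpecialLinearGroup.map f2 A)
  have hF1 : Function.Injective F := by
    intro A B hAB
    have h1 := congrArg Prod.fst hAB
    have h2 := congrArg Prod.snd hAB
    apply Subtype.ext
    ext i j
    refine he _ _ ?_ ?_
    · exact congrFun (congrFun (congrArg Subtype.val h1) i) j
    · exact congrFun (congrFun (congrArg Subtype.val h2) i) j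
  have hF2 : Function.Surjective F := by
    rintro ⟨A1, A2⟩
    let A : Matrix ι ι (ZMod (q * q')) := fun i j => e.symm (A1.1 i j, A2.1 i j)
    have m1 : f1.mapMatrix A = A1.1 := by
      ext i j
      change (e (e.symm (A1.1 i j, A2.1 i j))).1 = A1.1 i j
      rw [e.apply_symm_apply]
    have m2 : f2.mapMatrix A = A2.1 := by
      ext i j
      change (e (e.symm (A1.1 i j, A2.1 i j))).2 = A2.1 i j
      rw [e.apply_symm_apply]
    have hdet : A.det = 1 := by
      refine he _ _ ?_ ?_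
      · rw [RingHom.map_det, m1, A1.2, map_one]
      · rw [RingHom.map_det, m2, A2.2, map_one]
    refine ⟨⟨A, hdet⟩, Prod.ext ?_ ?_⟩
    · exact Subtype.ext m1
    · exact Subtype.ext m2
  refine ⟨?_, fun B => ?_⟩
  · rw [← Nat.card_prod]
    exact Nat.card_congr (Equiv.ofBijective F ⟨hF1, hF2⟩)
  · rw [← Set.ncard_prod]
    refine Set.ncard_le_ncard_of_injOn F ?_ hF1.injOn (Set.toFinite _)
    rintro _ ⟨g, hg, rfl⟩
    refine ⟨⟨g, hg, ?_⟩, ⟨g, hg, ?_⟩⟩
    · apply Subtype.ext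
      ext i j
      exact (map_intCast f1 (g.1 i j)).symm
    · apply Subtype.ext
      ext i j
      exact (map_intCast f2 (g.1 i j)).symm

/-- one modulus, products of primes -/
theorem crt_prod (P : Finset ℕ) (hP : ∀ p ∈ P, p.Prime) (B : Set (Matrix.SpecialLinearGroup ι ℤ)) :
    Nat.card (Matrix.SpecialLinearGroup ι (ZMod (∏ p ∈ P, p))) =
      ∏ p ∈ P, Nat.card (Matrix.SpecialLinearGroup ι (ZMod p)) ∧
    (rd (∏ p ∈ P, p) '' B).ncard ≤ ∏ p ∈ P, (rd p '' B).ncard := by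
  classical
  induction P using Finset.induction_on with
  | empty =>
    rw [Finset.prod_empty, Finset.prod_empty, Finset.prod_empty]
    have h1 : Subsingleton (Matrix.SpecialLinearGroup ι (ZMod 1)) := by
      constructor
      intro A B
      apply Subtype.ext
      ext i j
      exact Subsingleton.elim _ _
    exact ⟨Nat.card_unique, (Set.ncard_le_one_iff).2 fun {a b} _ _ => Subsingleton.elim _ _⟩
  | insert p P hp ih =>
    have hpp := hP p (Finset.mem_insert_self p P)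
    have hP' : ∀ q ∈ P, q.Prime := fun q hq => hP q (Finset.mem_insert_of_mem hq)
    obtain ⟨h1, h2⟩ := ih hP'
    have hc : p.Coprime (∏ q ∈ P, q) := Nat.Coprime.prod_right fun q hq =>
      (Nat.coprime_primes hpp (hP' q hq)).2 (by rintro rfl; exact hp hq)
    obtain ⟨h3, h4⟩ := crt2 (ι := ι) hpp.pos (Finset.prod_pos fun q hq => (hP' q hq).pos) hc
    rw [Finset.prod_insert hp, Finset.prod_insert hp, Finset.prod_insert hp]
    refine ⟨by rw [h3, h1], (h4 B).trans (Nat.mul_le_mul_left _ h2)⟩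

/-- the union of two null sets -/
theorem GNull.union {A B : Set (Matrix.SpecialLinearGroup ι ℤ)} (hA : GNull A) (hB : GNull B) :
    GNull (A ∪ B) := by
  intro M hM ε hε
  obtain ⟨q, hq, hqM, h1⟩ := hA M hM (ε / 2) (by positivity)
  obtain ⟨q', hq', hqM', h2⟩ := hB (M * q) (Nat.mul_pos hM hq) (ε / 2) (by positivity)
  have n1 : NeZero q := ⟨hq.ne'⟩
  have n2 : NeZero q' := ⟨hq'.ne'⟩
  have hc : q.Coprime q' := (Nat.Coprime.coprime_mul_left_right hqM').symm
  obtain ⟨h3, h4⟩ := crt2 (ι := ι) hq hq' hc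
  refine ⟨q * q', Nat.mul_pos hq hq', Nat.Coprime.mul_left hqM (Nat.Coprime.coprime_mul_right_right hqM'), ?_⟩
  have e1 : (rd q '' B).ncard ≤ Nat.card (Matrix.SpecialLinearGroup ι (ZMod q)) := by
    rw [← Set.ncard_univ]
    exact Set.ncard_le_ncard (Set.subset_univ _) (Set.toFinite _)
  have e2 : (rd q' '' A).ncard ≤ Nat.card (Matrix.SpecialLinearGroup ι (ZMod q')) := by
    rw [← Set.ncard_univ]
    exact Set.ncard_le_ncard (Set.subset_univ _) (Set.toFinite _)
  have e3 : (((rd (q * q') '' (A ∪ B)).ncard : ℕ) : ℝ) ≤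
      (((rd (q * q') '' A).ncard : ℕ) : ℝ) + (((rd (q * q') '' B).ncard : ℕ) : ℝ) := by
    rw [Set.image_union]
    exact_mod_cast Set.ncard_union_le _ _
  have e4 : (((rd (q * q') '' A).ncard : ℕ) : ℝ) ≤ (ε / 2 * Nat.card (Matrix.SpecialLinearGroup ι (ZMod q))) *
      Nat.card (Matrix.SpecialLinearGroup ι (ZMod q')) := by
    refine (Nat.cast_le.2 (h4 A)).trans ?_
    rw [Nat.cast_mul]
    exact mul_le_mul h1 (Nat.cast_le.2 e2) (Nat.cast_nonneg _) (by positivity)
  have e5 : (((rd (q * q') '' B).ncard : ℕ) : ℝ) ≤ Nat.card (Matrix.SpecialLinearGroup ι (ZMod q)) *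
      (ε / 2 * Nat.card (Matrix.SpecialLinearGroup ι (ZMod q'))) := by
    refine (Nat.cast_le.2 (h4 B)).trans ?_
    rw [Nat.cast_mul]
    exact mul_le_mul (Nat.cast_le.2 e1) h2 (Nat.cast_nonneg _) (by positivity)
  rw [h3, Nat.cast_mul]
  linarith

/-- subsets of null sets -/
theorem GNull.mono {A B : Set (Matrix.SpecialLinearGroup ι ℤ)} (hB : GNull B) (h : A ⊆ B) : GNull A := by
  intro M hM ε hε
  obtain ⟨q, hq, hqM, h1⟩ := hB M hM ε hε
  have n1 : NeZero q := ⟨hq.ne'⟩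
  refine ⟨q, hq, hqM, le_trans ?_ h1⟩
  exact Nat.cast_le.2 (Set.ncard_le_ncard (Set.image_mono h) (Set.toFinite _))

theorem GNull.empty : GNull (∅ : Set (Matrix.SpecialLinearGroup ι ℤ)) := by
  intro M hM ε hε
  refine ⟨1, one_pos, Nat.coprime_one_left M, ?_⟩
  rw [Set.image_empty, Set.ncard_empty, Nat.cast_zero]
  positivity

/-- finite unions -/
theorem GNull.biUnion {β : Type} (S : Finset β) (B : β → Set (Matrix.SpecialLinearGroup ι ℤ))
    (h : ∀ b ∈ S, GNull (B b)) : GNull {g | ∃ b ∈ S, g ∈ B b} := by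
  classical
  induction S using Finset.induction_on with
  | empty =>
    refine GNull.empty.mono ?_
    rintro g ⟨b, hb, -⟩
    exact absurd hb (Finset.notMem_empty b)
  | insert a S _ ih =>
    refine ((h a (Finset.mem_insert_self a S)).union
      (ih fun b hb => h b (Finset.mem_insert_of_mem hb))).mono ?_
    rintro g ⟨b, hb, hg⟩
    rcases Finset.mem_insert.1 hb with rfl | hb
    · exact Or.inl hg
    · exact Or.inr ⟨b, hb, hg⟩

/-- **the local criterion** -/
theorem g_crit (Ω : ∀ p : ℕ, Set (Matrix.SpecialLinearGroup ι (ZMod p))) (T₀ : ℕ) (w : ℕ → ℝ)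
    (hw0 : ∀ p, 0 ≤ w p) (hdiv : ¬ Summable (fun p : ℕ => if p.Prime then w p else 0))
    (hΩ : ∀ p, p.Prime → T₀ < p →
      w p * (Nat.card (Matrix.SpecialLinearGroup ι (ZMod p)) : ℝ) ≤ ((Ω p).ncard : ℝ)) :
    GNull {g : Matrix.SpecialLinearGroup ι ℤ | ∀ p, p.Prime → T₀ < p → rd p g ∉ Ω p} := by
  intro M hM ε hε
  classical
  set good : ℕ → Prop := fun p => p.Prime ∧ max T₀ M < p with hgood
  have hns : ¬ Summable (fun p : ℕ => if good p then w p else 0) := by
    intro hsum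
    apply hdiv
    refine (summable_congr_cofinite ?_).mp hsum
    rw [Filter.eventuallyEq_iff_exists_mem]
    refine ⟨(Set.Iic (max T₀ M))ᶜ, ?_, ?_⟩
    · rw [mem_cofinite, compl_compl]
      exact Set.finite_Iic _
    · intro p hp
      rw [Set.mem_compl_iff, Set.mem_Iic, not_le] at hp
      by_cases hpp : p.Prime
      · simp only [hgood, hpp, hp, and_self, if_true]
      · simp [hgood, hpp]
  have hnn : ∀ p : ℕ, 0 ≤ (if good p then w p else 0) := by
    intro p
    have := hw0 p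
    split_ifs
    · exact this
    · exact le_rfl
  have ht := (not_summable_iff_tendsto_nat_atTop_of_nonneg hnn).mp hns
  obtain ⟨y, hy⟩ := (ht.eventually_ge_atTop (-Real.log ε)).exists
  set P : Finset ℕ := (Finset.range y).filter good with hP
  have hPsum : -Real.log ε ≤ ∑ p ∈ P, w p := by
    rw [hP, Finset.sum_filter]
    exact hy
  have hPm : ∀ p ∈ P, p.Prime ∧ max T₀ M < p := fun p hp => (Finset.mem_filter.1 hp).2
  have hT : ∀ p ∈ P, T₀ < p := fun p hp => lt_of_le_of_lt (le_max_left _ _) (hPm p hp).2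
  refine ⟨∏ p ∈ P, p, Finset.prod_pos fun p hp => (hPm p hp).1.pos,
    Nat.Coprime.prod_left fun p hp => ?_, ?_⟩
  · have h1 : M < p := lt_of_le_of_lt (le_max_right _ _) (hPm p hp).2
    exact (Nat.Prime.coprime_iff_not_dvd (hPm p hp).1).2 fun h => absurd (Nat.le_of_dvd hM h) (by omega)
  obtain ⟨h1, h2⟩ := crt_prod (ι := ι) P (fun p hp => (hPm p hp).1)
    {g : Matrix.SpecialLinearGroup ι ℤ | ∀ p, p.Prime → T₀ < p → rd p g ∉ Ω p}
  rw [h1]
  refine (Nat.cast_le.2 h2).trans ?_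
  rw [Nat.cast_prod, Nat.cast_prod]
  have h3 : ∀ p ∈ P, (((rd p '' {g : Matrix.SpecialLinearGroup ι ℤ | ∀ p, p.Prime → T₀ < p →
      rd p g ∉ Ω p}).ncard : ℕ) : ℝ) ≤
      Nat.card (Matrix.SpecialLinearGroup ι (ZMod p)) * Real.exp (-w p) := by
    intro p hp
    have n1 : NeZero p := ⟨(hPm p hp).1.ne_zero⟩
    have e1 : (rd p '' {g : Matrix.SpecialLinearGroup ι ℤ | ∀ p, p.Prime → T₀ < p →
        rd p g ∉ Ω p}).ncard ≤ (Ω p)ᶜ.ncard := by
      refine Set.ncard_le_ncard ?_ (Set.toFinite _)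
      rintro _ ⟨g, hg, rfl⟩
      exact hg p (hPm p hp).1 (hT p hp)
    have e2 := Set.ncard_add_ncard_compl (Ω p)
    have e3 : ((Ω p).ncard : ℝ) + ((Ω p)ᶜ.ncard : ℝ) = Nat.card (Matrix.SpecialLinearGroup ι (ZMod p)) := by
      exact_mod_cast e2
    have e4 : (((rd p '' {g : Matrix.SpecialLinearGroup ι ℤ | ∀ p, p.Prime → T₀ < p →
        rd p g ∉ Ω p}).ncard : ℕ) : ℝ) ≤ ((Ω p)ᶜ.ncard : ℝ) := Nat.cast_le.2 e1
    have e5 := hΩ p (hPm p hp).1 (hT p hp)
    have e6 := Real.add_one_le_exp (-w p)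
    have e7 : (0 : ℝ) ≤ Nat.card (Matrix.SpecialLinearGroup ι (ZMod p)) := Nat.cast_nonneg _
    nlinarith [mul_le_mul_of_nonneg_left e6 e7]
  refine (Finset.prod_le_prod (fun p _ => Nat.cast_nonneg _) h3).trans ?_
  rw [Finset.prod_mul_distrib, ← Real.exp_sum, Finset.sum_neg_distrib, mul_comm ε]
  refine mul_le_mul_of_nonneg_left ?_ (Finset.prod_nonneg fun p _ => Nat.cast_nonneg _)
  rw [← Real.exp_log hε, Real.exp_le_exp]
  linarith

/-- one modulus -/
theorem g_step (hE : S_ERG) (W : Walk ι) (B : Set (Matrix.SpecialLinearGroup ι ℤ)) (q : ℕ) (hq : 0 < q)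
    (hqc : q.Coprime W.q₀) (ε : ℝ)
    (hB : (((rd q '' B).ncard : ℕ) : ℝ) ≤ ε * (Nat.card (Matrix.SpecialLinearGroup ι (ZMod q)) : ℝ)) :
    ∀ᵐ w ∂(words W.m), ∀ δ : ℝ, 0 < δ → ∀ᶠ N : ℕ in atTop,
      (({n : ℕ | n < N ∧ gel W w n ∈ B}.ncard : ℕ) : ℝ) / (N : ℝ) ≤ ε + δ := by
  have n1 : NeZero q := ⟨hq.ne'⟩
  have h1 := hE (Matrix.SpecialLinearGroup ι (ZMod q)) (Matrix.SpecialLinearGroup ι (ZMod q)) W.m
    (fun j => rd q (W.s j)) (W.gen q hq hqc) 1 (rd q '' B)
  have hpos : (0 : ℝ) < Nat.card (Matrix.SpecialLinearGroup ι (ZMod q)) := by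
    exact_mod_cast Nat.card_pos
  have hlim : ((rd q '' B).ncard : ℝ) / (Nat.card (Matrix.SpecialLinearGroup ι (ZMod q)) : ℝ) ≤ ε := by
    rw [div_le_iff₀ hpos]
    exact hB
  filter_upwards [h1] with w hw δ hδ
  have h2 := hw (fun n => rd q (gel W w n)) (map_one _) (fun n => by
    change rd q (W.s (w n) * gel W w n) = rd q (W.s (w n)) * rd q (gel W w n)
    rw [map_mul])
  have h3 := (tendsto_order.1 h2).2 (ε + δ) (by linarith)
  filter_upwards [h3] with N hN
  refine le_trans ?_ hN.le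
  refine div_le_div_of_nonneg_right ?_ (Nat.cast_nonneg N)
  have h4 : {n : ℕ | n < N ∧ gel W w n ∈ B}.ncard ≤
      {n : ℕ | n < N ∧ rd q (gel W w n) ∈ rd q '' B}.ncard := by
    refine Set.ncard_le_ncard ?_ ((Set.finite_Iio N).subset fun n hn => hn.1)
    intro n hn
    exact ⟨hn.1, ⟨_, hn.2, rfl⟩⟩
  exact_mod_cast h4

/-- **null sets are almost never visited** -/
theorem g_main (hE : S_ERG) (W : Walk ι) (B : Set (Matrix.SpecialLinearGroup ι ℤ)) (hB : GNull B) :
    ∀ᵐ w ∂(words W.m), Tendsto (fun N : ℕ =>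
      (({n : ℕ | n < N ∧ gel W w n ∈ B}.ncard : ℕ) : ℝ) / (N : ℝ)) atTop (𝓝 0) := by
  have h1 : ∀ k : ℕ, ∀ᵐ w ∂(words W.m), ∀ δ : ℝ, 0 < δ → ∀ᶠ N : ℕ in atTop,
      (({n : ℕ | n < N ∧ gel W w n ∈ B}.ncard : ℕ) : ℝ) / (N : ℝ) ≤ 1 / ((k : ℝ) + 1) + δ := by
    intro k
    obtain ⟨q, hq, hqc, hqB⟩ := hB _ W.pos (1 / ((k : ℝ) + 1)) (by positivity)
    exact g_step hE W B q hq hqc _ hqB
  have h2 := ae_all_iff.2 h1
  filter_upwards [h2] with w hw
  rw [tendsto_order]
  constructor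
  · intro a ha
    refine Eventually.of_forall fun N => lt_of_lt_of_le ha ?_
    positivity
  · intro a ha
    obtain ⟨k, hk⟩ := exists_nat_gt (4 / a)
    have h3 := hw k (a / 4) (by linarith)
    filter_upwards [h3] with N hN
    have h4 : 1 / ((k : ℝ) + 1) ≤ a / 4 := by
      rw [div_le_div_iff₀ (by positivity) (by norm_num)]
      rw [div_lt_iff₀ ha] at hk
      nlinarith
    linarith

end Pool.Agent.N475.RG
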