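import Pool.Agent.N475.RG.SL
import Pool.Agent.N475.RG.Eng

set_option autoImplicit false

/-!
# The Skolem Problem for random elements of `SL_d(ℤ)`: null sets
-/

namespace Pool.Agent.N475.RG

open Matrix Filter Topology Pool.Agent.R77.Orb Pool.Agent.N24.RW

/-- The two-sided sequence `y ⬝ᵥ (g ^ k *ᵥ x)`, `k ∈ ℤ`, for the integral matrix `g` of determinant
one. -/
def hyp {d : ℕ} (g : Matrix.SpecialLinearGroup (Fin d) ℤ) (x y : Fin d → ℤ) (k : ℤ) : ℤ :=
  y ⬝ᵥ ((g ^ k).1 *ᵥ x)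

/-- The prime `p` is a certificate that the two-sided sequence `u` has no zero: no term is divisible by
`p`, and `u` has period `(p - 1) / 2` modulo `p`. -/
def PrimeCert (p : ℕ) (u : ℤ → ℤ) : Prop :=
  p.Prime ∧ (∀ k, ¬ (p : ℤ) ∣ u k) ∧ ∀ k, (p : ℤ) ∣ u (k + (p - 1) / 2) - u k

theorem cast_dot {d : ℕ} (p : ℕ) (M : Matrix (Fin d) (Fin d) ℤ) (x y : Fin d → ℤ) :
    ((y ⬝ᵥ (M *ᵥ x) : ℤ) : ZMod p) =
      (fun i => (y i : ZMod p)) ⬝ᵥ ((M.map (Int.castRingHom (ZMod p))) *ᵥ fun i => (x i : ZMod p)) := by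
  unfold dotProduct Matrix.mulVec dotProduct
  rw [Int.cast_sum]
  refine Finset.sum_congr rfl fun i _ => ?_
  rw [Int.cast_mul, Int.cast_sum]
  congr 1
  refine Finset.sum_congr rfl fun j _ => ?_
  rw [Int.cast_mul]
  rfl

/-- the powers modulo `p` -/
theorem hyp_cast {d : ℕ} (p : ℕ) (hp : p.Prime) (g : Matrix.SpecialLinearGroup (Fin d) ℤ)
    (x y : Fin d → ℤ) (k : ℤ) : ∃ m : ℕ, ∀ n : ℕ, ((hyp g x y (k + n) : ℤ) : ZMod p) =
      orb (rd p g).1 (fun i => (x i : ZMod p)) (fun i => (y i : ZMod p)) (m + n) := by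
  have : NeZero p := ⟨hp.ne_zero⟩
  have hfin : IsOfFinOrder (rd p g) := isOfFinOrder_of_finite _
  refine ⟨(k % orderOf (rd p g)).toNat, fun n => ?_⟩
  have h1 : (rd p g) ^ (k + n) = (rd p g) ^ ((k % orderOf (rd p g)).toNat + n) := by
    have h2 : ((k % orderOf (rd p g)).toNat : ℤ) = k % orderOf (rd p g) :=
      Int.toNat_of_nonneg (Int.emod_nonneg _ (by exact_mod_cast hfin.orderOf_pos.ne'))
    rw [_root_.zpow_add, _root_.zpow_natCast, pow_add]
    congr 1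
    rw [← _root_.zpow_natCast, h2, zpow_mod_orderOf]
  unfold hyp
  rw [cast_dot]
  have h3 : (g ^ (k + n)).1.map (Int.castRingHom (ZMod p)) =
      (rd p g).1 ^ ((k % orderOf (rd p g)).toNat + n) := by
    calc (g ^ (k + n)).1.map (Int.castRingHom (ZMod p)) = (rd p (g ^ (k + n))).1 := rfl
      _ = ((rd p g) ^ (k + n)).1 := by rw [map_zpow]
      _ = ((rd p g) ^ ((k % orderOf (rd p g)).toNat + n)).1 := by rw [h1]
      _ = _ := Matrix.SpecialLinearGroup.coe_pow _ _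
  rw [h3]
  rfl

/-- the certificate -/
theorem good_cert {d : ℕ} (p : ℕ) (hp : p.Prime) (g : Matrix.SpecialLinearGroup (Fin d) ℤ)
    (x y : Fin d → ℤ)
    (h : GoodM (rd p g).1 (fun i => (x i : ZMod p)) (fun i => (y i : ZMod p))) (hp2 : p ≠ 2) :
    PrimeCert p (hyp g x y) := by
  refine ⟨hp, fun k hk => ?_, fun k => ?_⟩
  · obtain ⟨m, hm⟩ := hyp_cast p hp g x y k
    rw [← ZMod.intCast_zmod_eq_zero_iff_dvd] at hk
    have h1 := hm 0
    rw [Nat.cast_zero, add_zero, add_zero, hk] at h1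
    exact h.2 m h1.symm
  · obtain ⟨m, hm⟩ := hyp_cast p hp g x y k
    rw [← ZMod.intCast_zmod_eq_zero_iff_dvd, Int.cast_sub, sub_eq_zero]
    obtain ⟨T, hT⟩ := hp.odd_of_ne_two hp2
    have e1 : ((p : ℤ) - 1) / 2 = ((T : ℕ) : ℤ) := by omega
    have e2 : (p - 1) / 2 = T := by omega
    have h0 := hm 0
    rw [Nat.cast_zero, add_zero, add_zero] at h0
    rw [e1, hm T, h0]
    have h2 := h.1 m
    rw [e2] at h2
    exact h2

/-- one pair of vectors -/
theorem null_pair (d : ℕ) (hd : 2 ≤ d) (x y : Fin d → ℤ) (hxy : y ⬝ᵥ x ≠ 0) :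
    GNull {g : Matrix.SpecialLinearGroup (Fin d) ℤ | ¬ ∃ p, PrimeCert p (hyp g x y)} := by
  obtain ⟨e, rfl⟩ : ∃ e, d = e + 1 := ⟨d - 1, by omega⟩
  have he : 1 ≤ e := by omega
  have hC : (0 : ℝ) < ((4 * (e + 1) ^ e * 2 ^ (2 * e + 1) : ℕ) : ℝ) := by
    have : 0 < 4 * (e + 1) ^ e * 2 ^ (2 * e + 1) := by positivity
    exact_mod_cast this
  set C : ℝ := ((4 * (e + 1) ^ e * 2 ^ (2 * e + 1) : ℕ) : ℝ) with hCdef
  refine (g_crit (fun p => {M : Matrix.SpecialLinearGroup (Fin (e + 1)) (ZMod p) |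
    GoodM M.1 (fun i => (x i : ZMod p)) (fun i => (y i : ZMod p))})
    (max (4 * (2 * e * e + e) + 2) (y ⬝ᵥ x).natAbs) (fun _ => 1 / C) (fun _ => by positivity) ?_ ?_).mono ?_
  · intro hs
    have h1 := hs.tendsto_atTop_zero
    have h2 : ∀ᶠ p : ℕ in atTop, (if p.Prime then 1 / C else 0) < 1 / C :=
      h1.eventually_lt_const (by positivity)
    obtain ⟨N, hN⟩ := eventually_atTop.1 h2
    obtain ⟨p, hp1, hp2⟩ := Nat.exists_infinite_primes N
    have h3 := hN p hp1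
    rw [if_pos hp2] at h3
    exact lt_irrefl _ h3
  · intro p hp hpT
    have h1 : 4 * (2 * e * e + e) + 2 < p := lt_of_le_of_lt (le_max_left _ _) hpT
    have h2 : (y ⬝ᵥ x).natAbs < p := lt_of_le_of_lt (le_max_right _ _) hpT
    have h3 : (fun i => (y i : ZMod p)) ⬝ᵥ (fun i => (x i : ZMod p)) ≠ 0 := by
      intro h4
      have h5 : ((y ⬝ᵥ x : ℤ) : ZMod p) = 0 := by
        rw [← h4]
        unfold dotProduct
        rw [Int.cast_sum]
        exact Finset.sum_congr rfl fun i _ => Int.cast_mul _ _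
      rw [ZMod.intCast_zmod_eq_zero_iff_dvd] at h5
      have h6 := Int.natAbs_dvd_natAbs.2 h5
      rw [Int.natAbs_natCast] at h6
      have h7 := Nat.le_of_dvd (Int.natAbs_pos.2 hxy) h6
      omega
    have h4 := dens1 e he p hp h1.le _ _ h3
    have h5 : Nat.card {M : Matrix (Fin (e + 1)) (Fin (e + 1)) (ZMod p) //
        GoodM M (fun i => (x i : ZMod p)) (fun i => (y i : ZMod p)) ∧ M.det = 1} =
        ({M : Matrix.SpecialLinearGroup (Fin (e + 1)) (ZMod p) |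
          GoodM M.1 (fun i => (x i : ZMod p)) (fun i => (y i : ZMod p))}).ncard := by
      rw [← Nat.card_coe_set_eq]
      exact Nat.card_congr
        { toFun := fun M => ⟨⟨M.1, M.2.2⟩, M.2.1⟩
          invFun := fun M => ⟨M.1.1, M.2, M.1.2⟩
          left_inv := fun M => rfl
          right_inv := fun M => rfl }
    rw [h5] at h4
    rw [one_div, inv_mul_le_iff₀ hC, hCdef]
    exact_mod_cast h4
  · intro g hg p hp hpT hG
    have h1 : 4 * (2 * e * e + e) + 2 < p := lt_of_le_of_lt (le_max_left _ _) hpT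
    exact hg ⟨p, good_cert p hp g x y hG (by omega)⟩

/-- all small pairs of vectors -/
theorem null_all (d : ℕ) (hd : 2 ≤ d) (D : ℕ) :
    GNull {g : Matrix.SpecialLinearGroup (Fin d) ℤ | ¬ ∀ x y : Fin d → ℤ, (∀ i, |x i| ≤ (D : ℤ)) →
      (∀ i, |y i| ≤ (D : ℤ)) → y ⬝ᵥ x ≠ 0 → ∃ p, PrimeCert p (hyp g x y)} := by
  classical
  set S : Finset ((Fin d → ℤ) × (Fin d → ℤ)) :=
    ((Fintype.piFinset fun _ : Fin d => Finset.Icc (-(D : ℤ)) D) ×ˢ
      (Fintype.piFinset fun _ : Fin d => Finset.Icc (-(D : ℤ)) D)).filter fun z => z.2 ⬝ᵥ z.1 ≠ 0 with hS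
  refine (GNull.biUnion S (fun z => {g : Matrix.SpecialLinearGroup (Fin d) ℤ |
    ¬ ∃ p, PrimeCert p (hyp g z.1 z.2)}) fun z hz => null_pair d hd z.1 z.2 (Finset.mem_filter.1 hz).2).mono ?_
  intro g hg
  rw [Set.mem_ofPred_eq] at hg
  push Not at hg
  obtain ⟨x, y, hx, hy, hxy, hno⟩ := hg
  refine ⟨(x, y), ?_, ?_⟩
  · rw [hS, Finset.mem_filter, Finset.mem_product, Fintype.mem_piFinset, Fintype.mem_piFinset]
    refine ⟨⟨fun i => ?_, fun i => ?_⟩, hxy⟩
    · rw [Finset.mem_Icc]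
      exact abs_le.1 (hx i)
    · rw [Finset.mem_Icc]
      exact abs_le.1 (hy i)
  · rintro ⟨p, hp⟩
    exact hno p hp

end Pool.Agent.N475.RG
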