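import Pool.Agent.R77.Orb.Count

set_option autoImplicit false

/-!
# Matrices of determinant one modulo a prime whose orbit sequences have no zero

Adaptation to `SL_d` of the counts of `Pool.Agent.R77.Orb` (helper77) and `Pool.Agent.H684R3.Smo`.
-/

namespace Pool.Agent.N475.RG

open Matrix Pool.Agent.H884R2.Sko Pool.Agent.H684R3.Smo Pool.Agent.R77.Orb

section det

variable {K : Type} [Field K]

/-- the determinant of the companion matrix -/
theorem det_cmp (d : ℕ) (S : Finset K) (hS : S.card = d) :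
    (cmp (coef d S)).det = ∏ a ∈ S, a := by
  classical
  let e : Fin d ≃ S := (S.equivFinOfCardEq hS).symm
  let l : Fin d → K := fun i => (e i : K)
  have hl : Function.Injective l := fun i j h => e.injective (Subtype.ext h)
  have hroot : ∀ i, ∑ k : Fin d, l i ^ (k : ℕ) * coef d S k = l i ^ d := by
    intro i
    have h1 : (poly S).eval (l i) = 0 := by
      unfold poly
      rw [Polynomial.eval_prod]
      refine Finset.prod_eq_zero (e i).2 ?_
      rw [Polynomial.eval_sub, Polynomial.eval_X, Polynomial.eval_C]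
      exact sub_self _
    rw [Polynomial.eval_eq_sum_range, poly_natDegree, hS, Finset.sum_range_succ] at h1
    have h2 : (poly S).coeff d = 1 := by
      have := poly_monic S
      rw [Polynomial.Monic, Polynomial.leadingCoeff, poly_natDegree, hS] at this
      exact this
    rw [h2, one_mul, Finset.sum_range] at h1
    have h3 : ∑ k : Fin d, l i ^ (k : ℕ) * coef d S k =
        -∑ k : Fin d, (poly S).coeff k * l i ^ (k : ℕ) := by
      rw [← Finset.sum_neg_distrib]
      refine Finset.sum_congr rfl fun k _ => ?_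
      unfold coef
      ring
    rw [h3]
    linear_combination (-1 : K) * h1
  have hV : (vandermonde l) * cmp (coef d S) = diagonal l * vandermonde l := by
    ext i j
    rw [Matrix.mul_apply, Matrix.diagonal_mul, Matrix.vandermonde_apply]
    by_cases hj : (j : ℕ) + 1 < d
    · rw [Finset.sum_eq_single (⟨(j : ℕ) + 1, hj⟩ : Fin d)]
      · rw [Matrix.vandermonde_apply]
        unfold Pool.Agent.R77.Orb.cmp
        rw [Matrix.of_apply, if_pos hj, if_pos rfl, mul_one, pow_succ']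
      · intro k _ hk
        unfold Pool.Agent.R77.Orb.cmp
        rw [Matrix.of_apply, if_pos hj, if_neg (fun h => hk (Fin.ext h)), mul_zero]
      · intro h
        exact absurd (Finset.mem_univ _) h
    · have hj2 : (j : ℕ) + 1 = d := by omega
      have h4 : ∀ k : Fin d, vandermonde l i k * cmp (coef d S) k j = l i ^ (k : ℕ) * coef d S k := by
        intro k
        unfold Pool.Agent.R77.Orb.cmp
        rw [Matrix.of_apply, if_neg hj, Matrix.vandermonde_apply]
      rw [Finset.sum_congr rfl fun k _ => h4 k, hroot, ← pow_succ', hj2]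
  have hdV : (vandermonde l).det ≠ 0 := Matrix.det_vandermonde_ne_zero_iff.2 hl
  have h5 := congrArg Matrix.det hV
  rw [Matrix.det_mul, Matrix.det_mul, Matrix.det_diagonal, mul_comm] at h5
  have h6 := mul_right_cancel₀ hdV h5
  rw [h6]
  calc ∏ i, l i = ∏ a : S, (a : K) := Fintype.prod_equiv e _ _ fun i => rfl
    _ = ∏ a ∈ S, a := Finset.prod_coe_sort S fun a => a

end det

/-- the squares -/
theorem squares (p : ℕ) [Fact p.Prime] (T : ℕ) (hT : 2 * T = p - 1) (hT0 : 0 < T) :
    ∃ Q : Finset (ZMod p), Q.card = T ∧ ∀ a, a ∈ Q ↔ a ^ T = 1 := by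
  classical
  obtain ⟨Q, hQ1, hQ2⟩ := exists_squares p T hT
  refine ⟨Q, hQ1, fun a => ⟨hQ2 a, fun ha => ?_⟩⟩
  by_contra hc
  have h1 : insert a Q ⊆ (Polynomial.nthRoots T (1 : ZMod p)).toFinset := by
    intro b hb
    rw [Multiset.mem_toFinset, Polynomial.mem_nthRoots hT0]
    rcases Finset.mem_insert.1 hb with rfl | hb
    · exact ha
    · exact hQ2 b hb
  have h2 := Finset.card_le_card h1
  rw [Finset.card_insert_of_notMem hc, hQ1] at h2
  have h3 := (Multiset.toFinset_card_le (Polynomial.nthRoots T (1 : ZMod p))).trans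
    (Polynomial.card_nthRoots T 1)
  omega

/-- the polynomial of the coincidences -/
noncomputable def PP (K : Type) [Field K] (e : ℕ) : MvPolynomial (Fin e) K :=
  (∏ x ∈ (Finset.univ : Finset (Fin e × Fin e)).filter (fun x => x.1 ≠ x.2),
    (MvPolynomial.X x.1 - MvPolynomial.X x.2)) *
  ∏ i : Fin e, (MvPolynomial.X i * ∏ k, MvPolynomial.X k - 1)

theorem PP_ne (K : Type) [Field K] (e : ℕ) : PP K e ≠ 0 := by
  unfold PP
  refine mul_ne_zero (Finset.prod_ne_zero_iff.2 fun x hx => ?_) (Finset.prod_ne_zero_iff.2 fun i _ => ?_)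
  · intro h
    rw [sub_eq_zero] at h
    exact (Finset.mem_filter.1 hx).2 (MvPolynomial.X_injective h)
  · intro h
    have h1 := congrArg (MvPolynomial.eval (fun _ => (0 : K))) h
    rw [map_sub, map_mul, MvPolynomial.eval_X, zero_mul, map_one, map_zero, zero_sub] at h1
    exact one_ne_zero (neg_eq_zero.1 h1)

theorem PP_deg (K : Type) [Field K] (e : ℕ) : (PP K e).totalDegree ≤ 2 * e * e + e := by
  unfold PP
  refine (MvPolynomial.totalDegree_mul _ _).trans ?_
  have h1 : (∏ x ∈ (Finset.univ : Finset (Fin e × Fin e)).filter (fun x => x.1 ≠ x.2),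
      (MvPolynomial.X x.1 - MvPolynomial.X x.2 : MvPolynomial (Fin e) K)).totalDegree ≤ e * e := by
    refine (MvPolynomial.totalDegree_finsetProd _ _).trans ?_
    refine (Finset.sum_le_card_nsmul _ _ 1 fun x _ => ?_).trans ?_
    · refine (MvPolynomial.totalDegree_sub _ _).trans ?_
      rw [MvPolynomial.totalDegree_X, MvPolynomial.totalDegree_X, max_self]
    · rw [smul_eq_mul, mul_one]
      refine (Finset.card_filter_le _ _).trans ?_
      rw [Finset.card_univ, Fintype.card_prod, Fintype.card_fin]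
  have h2 : (∏ i : Fin e, (MvPolynomial.X i * ∏ k, MvPolynomial.X k - 1 :
      MvPolynomial (Fin e) K)).totalDegree ≤ e * (1 + e) := by
    refine (MvPolynomial.totalDegree_finsetProd _ _).trans ?_
    refine (Finset.sum_le_card_nsmul _ _ (1 + e) fun i _ => ?_).trans ?_
    · refine (MvPolynomial.totalDegree_sub _ _).trans (max_le ?_ ?_)
      · refine (MvPolynomial.totalDegree_mul _ _).trans ?_
        rw [MvPolynomial.totalDegree_X]
        refine Nat.add_le_add_left ?_ 1
        refine (MvPolynomial.totalDegree_finsetProd _ _).trans ?_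
        refine (Finset.sum_le_card_nsmul _ _ 1 fun k _ => ?_).trans ?_
        · rw [MvPolynomial.totalDegree_X]
        · rw [smul_eq_mul, mul_one, Finset.card_univ, Fintype.card_fin]
      · rw [MvPolynomial.totalDegree_one]
        exact Nat.zero_le _
    · rw [smul_eq_mul, Finset.card_univ, Fintype.card_fin]
  calc _ ≤ e * e + e * (1 + e) := Nat.add_le_add h1 h2
    _ = 2 * e * e + e := by ring

/-- many sets of squares with product one -/
theorem card_sets (p : ℕ) [Fact p.Prime] (e T : ℕ) (he : 1 ≤ e) (hT : 2 * (2 * e * e + e) ≤ T)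
    (Q : Finset (ZMod p)) (hQ : Q.card = T) (hQT : ∀ a, a ∈ Q ↔ a ^ T = 1) :
    T ^ e ≤ 2 * (e + 1) ^ e * ((Q.powersetCard (e + 1)).filter fun S => ∏ a ∈ S, a = 1).card := by
  classical
  have hT0 : 0 < T := by
    have : 0 < e * e := Nat.mul_pos he he
    nlinarith
  have hQ0 : ∀ a ∈ Q, a ≠ 0 := by
    rintro a ha rfl
    rw [hQT, zero_pow hT0.ne'] at ha
    exact zero_ne_one ha
  set X : Finset (Fin e → ZMod p) := Fintype.piFinset fun _ : Fin e => Q with hX
  have hXc : X.card = T ^ e := by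
    rw [hX, Fintype.card_piFinset_const, hQ]
  set bad : Finset (Fin e → ZMod p) := X.filter fun f => MvPolynomial.eval f (PP (ZMod p) e) = 0
  set good : Finset (Fin e → ZMod p) := X.filter fun f => ¬ MvPolynomial.eval f (PP (ZMod p) e) = 0
    with hgood
  have hbg : bad.card + good.card = T ^ e := by
    rw [← hXc]
    exact Finset.card_filter_add_card_filter_not _
  have hbad : 2 * bad.card ≤ T ^ e := by
    have h1 := MvPolynomial.schwartz_zippel_totalDegree (PP_ne (ZMod p) e) Q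
    rw [hQ] at h1
    have hTq : (0 : ℚ≥0) < T := by exact_mod_cast hT0
    have hTq' : (0 : ℚ≥0) < (T : ℚ≥0) ^ e := by positivity
    rw [div_le_div_iff₀ hTq' hTq] at h1
    have h2 : bad.card * T ≤ (PP (ZMod p) e).totalDegree * T ^ e := by exact_mod_cast h1
    have h3 := PP_deg (ZMod p) e
    have h4 : 2 * bad.card * T ≤ T ^ e * T := by
      calc 2 * bad.card * T = 2 * (bad.card * T) := by ring
        _ ≤ 2 * ((2 * e * e + e) * T ^ e) :=
            Nat.mul_le_mul_left _ (h2.trans (Nat.mul_le_mul_right _ h3))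
        _ = (2 * (2 * e * e + e)) * T ^ e := by ring
        _ ≤ T * T ^ e := Nat.mul_le_mul_right _ hT
        _ = T ^ e * T := mul_comm _ _
    exact Nat.le_of_mul_le_mul_right h4 hT0
  have hg2 : T ^ e ≤ 2 * good.card := by omega
  -- the map to the sets
  let mu : (Fin e → ZMod p) → ZMod p := fun f => (∏ k, f k)⁻¹
  let F : (Fin e → ZMod p) → Finset (ZMod p) := fun f => insert (mu f) (Finset.univ.image f)
  have hF : good.card ≤ (e + 1) ^ e *
      ((Q.powersetCard (e + 1)).filter fun S => ∏ a ∈ S, a = 1).card := by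
    apply Finset.card_le_mul_card_image_of_maps_to (f := F)
    · intro f hf
      rw [hgood, Finset.mem_filter, hX, Fintype.mem_piFinset] at hf
      obtain ⟨hfQ, hf0⟩ := hf
      unfold PP at hf0
      rw [map_mul, mul_eq_zero, not_or, map_prod, map_prod, Finset.prod_eq_zero_iff,
        Finset.prod_eq_zero_iff] at hf0
      obtain ⟨hf1, hf2⟩ := hf0
      have hinj : Function.Injective f := by
        intro i j hij
        by_contra hne
        apply hf1
        refine ⟨(i, j), Finset.mem_filter.2 ⟨Finset.mem_univ _, hne⟩, ?_⟩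
        rw [map_sub, MvPolynomial.eval_X, MvPolynomial.eval_X, hij, sub_self]
      have hprod0 : ∏ k, f k ≠ 0 := Finset.prod_ne_zero_iff.2 fun k _ => hQ0 _ (hfQ k)
      have hmu : mu f ∉ Finset.univ.image f := by
        intro h
        rw [Finset.mem_image] at h
        obtain ⟨i, -, hi⟩ := h
        apply hf2
        refine ⟨i, Finset.mem_univ i, ?_⟩
        rw [map_sub, map_mul, map_prod, MvPolynomial.eval_X, map_one]
        have h2 : ∏ k, MvPolynomial.eval f (MvPolynomial.X k) = ∏ k, f k :=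
          Finset.prod_congr rfl fun k _ => MvPolynomial.eval_X k
        rw [h2, hi, inv_mul_cancel₀ hprod0, sub_self]
      have hcard : (F f).card = e + 1 := by
        rw [Finset.card_insert_of_notMem hmu, Finset.card_image_of_injective _ hinj, Finset.card_univ,
          Fintype.card_fin]
      refine Finset.mem_filter.2 ⟨Finset.mem_powersetCard.2 ⟨?_, hcard⟩, ?_⟩
      · intro a ha
        rcases Finset.mem_insert.1 ha with rfl | ha
        · rw [hQT, inv_pow, ← Finset.prod_pow, Finset.prod_congr rfl fun k _ => (hQT _).1 (hfQ k),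
            Finset.prod_const_one, inv_one]
        · obtain ⟨i, -, rfl⟩ := Finset.mem_image.1 ha
          exact hfQ i
      · rw [Finset.prod_insert hmu, Finset.prod_image fun i _ j _ h => hinj h]
        exact inv_mul_cancel₀ hprod0
    · intro S hS
      have hSc := (Finset.mem_powersetCard.1 (Finset.mem_filter.1 hS).1).2
      have h1 : (good.filter fun f => F f = S) ⊆ Fintype.piFinset fun _ : Fin e => S := by
        intro f hf
        rw [Finset.mem_filter] at hf
        rw [Fintype.mem_piFinset]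
        intro i
        rw [← hf.2]
        exact Finset.mem_insert_of_mem (Finset.mem_image_of_mem f (Finset.mem_univ i))
      refine (Finset.card_le_card h1).trans ?_
      exact le_of_eq (by rw [Fintype.card_piFinset_const, hSc])
  calc T ^ e ≤ 2 * good.card := hg2
    _ ≤ 2 * ((e + 1) ^ e * _) := Nat.mul_le_mul_left _ hF
    _ = _ := by ring

/-- the number of the good initial values for one set of roots -/
theorem card_good1 (p : ℕ) [Fact p.Prime] (d T : ℕ) (hd : 1 ≤ d) (hT : 2 * T = p - 1) (hT0 : 0 < T)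
    (Q : Finset (ZMod p)) (hQT : ∀ a, a ∈ Q ↔ a ^ T = 1) (S : Finset (ZMod p)) (hS : S ⊆ Q)
    (hSd : S.card = d) :
    p ^ d ≤ 2 * Nat.card {v : Fin d → ZMod p // GoodP (coef d S) v} := by
  classical
  have hprime : p.Prime := Fact.out
  have hT2 : (p - 1) / 2 = T := by omega
  have hne : S.Nonempty := Finset.card_pos.1 (by omega)
  have hST : ∀ a ∈ S, a ^ T = 1 := fun a ha => (hQT a).1 (hS ha)
  have h1 := card_bad d T hT0 S hSd hne hST
  rw [ZMod.card] at h1
  have h0 : Nat.card {v : Fin d → ZMod p // GoodP (coef d S) v} =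
      ((Finset.univ : Finset (Fin d → ZMod p)).filter
        (fun v => ¬ ∃ n, seq (coef d S) v n = 0)).card := by
    rw [Nat.card_eq_fintype_card, Fintype.card_subtype]
    congr 1
    ext v
    rw [Finset.mem_filter, Finset.mem_filter]
    refine and_congr_right fun _ => ⟨fun h hn => ?_, fun h => ⟨fun n => ?_, fun n hn => h ⟨n, hn⟩⟩⟩
    · obtain ⟨n, hn⟩ := hn
      exact h.2 n hn
    · rw [hT2]
      exact seq_periodic d T S hSd hST v n
  rw [h0]
  have h2 : ((Finset.univ : Finset (Fin d → ZMod p)).filter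
      (fun v => ∃ n, seq (coef d S) v n = 0)).card + ((Finset.univ : Finset (Fin d → ZMod p)).filter
        (fun v => ¬ ∃ n, seq (coef d S) v n = 0)).card = p ^ d := by
    rw [Finset.card_filter_add_card_filter_not, Finset.card_univ, Fintype.card_fun,
      Fintype.card_fin, ZMod.card]
  set bad := ((Finset.univ : Finset (Fin d → ZMod p)).filter
      (fun v => ∃ n, seq (coef d S) v n = 0)).card with hbad
  have hp0 : 0 < p := hprime.pos
  have h3 : 2 * bad ≤ p ^ d := by
    have h4 : 2 * bad * p ≤ (p - 1) * p ^ d := by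
      calc 2 * bad * p = 2 * (bad * p) := by ring
        _ ≤ 2 * (T * p ^ d) := Nat.mul_le_mul_left _ h1
        _ = (p - 1) * p ^ d := by rw [← hT]; ring
    have h5 : (p - 1) * p ^ d ≤ p ^ d * p := by
      rw [mul_comm]; exact Nat.mul_le_mul_left _ (Nat.sub_le _ _)
    exact Nat.le_of_mul_le_mul_right (h4.trans h5) hp0
  omega

/-- many good triples with determinant one -/
theorem count_sl (p : ℕ) [Fact p.Prime] (d T : ℕ) (hd : 1 ≤ d) (hT : 2 * T = p - 1) (hT0 : 0 < T)
    (Q : Finset (ZMod p)) (hQT : ∀ a, a ∈ Q ↔ a ^ T = 1) :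
    ((Q.powersetCard d).filter fun S => ∏ a ∈ S, a = 1).card * p ^ d *
      Nat.card (GL (Fin d) (ZMod p)) ≤
    2 * Nat.card {y : Matrix (Fin d) (Fin d) (ZMod p) × (Fin d → ZMod p) × (Fin d → ZMod p) //
      GoodM y.1 y.2.1 y.2.2 ∧ y.1.det = 1} := by
  classical
  have : NeZero p := ⟨(Fact.out : p.Prime).ne_zero⟩
  set 𝒮 := (Q.powersetCard d).filter fun S => ∏ a ∈ S, a = 1 with h𝒮
  have hmem : ∀ S ∈ 𝒮, S ⊆ Q ∧ S.card = d ∧ ∏ a ∈ S, a = 1 := by
    intro S hS
    rw [h𝒮, Finset.mem_filter, Finset.mem_powersetCard] at hS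
    exact ⟨hS.1.1, hS.1.2, hS.2⟩
  have h1 : 𝒮.card * p ^ d ≤ 2 * Nat.card (Σ S : 𝒮, {v : Fin d → ZMod p // GoodP (coef d S.1) v}) := by
    rw [Nat.card_sigma, Finset.mul_sum, ← Fintype.card_coe, ← smul_eq_mul, ← Finset.card_univ,
      ← Finset.sum_const]
    exact Finset.sum_le_sum fun S _ => card_good1 p d T hd hT hT0 Q hQT S.1 (hmem S.1 S.2).1
      (hmem S.1 S.2).2.1
  have h2 : Nat.card (Σ S : 𝒮, {v : Fin d → ZMod p // GoodP (coef d S.1) v}) *
      Nat.card (GL (Fin d) (ZMod p)) ≤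
      Nat.card {y : Matrix (Fin d) (Fin d) (ZMod p) × (Fin d → ZMod p) × (Fin d → ZMod p) //
        GoodM y.1 y.2.1 y.2.2 ∧ y.1.det = 1} := by
    rw [← Nat.card_prod]
    refine Nat.card_le_card_of_injective (fun z => ⟨tri hd (coef d z.1.1.1, z.1.2.1, z.2), ⟨?_, ?_⟩, ?_⟩) ?_
    · intro n
      rw [tri_orb, tri_orb]
      exact z.1.2.2.1 n
    · intro n
      rw [tri_orb]
      exact z.1.2.2.2 n
    · unfold tri
      rw [Matrix.det_mul, Matrix.det_mul, det_cmp d z.1.1.1 (hmem _ z.1.1.2).2.1,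
        (hmem _ z.1.1.2).2.2, mul_one, ← Matrix.det_mul]
      have h3 : ((z.2 : GL (Fin d) (ZMod p)) : Matrix (Fin d) (Fin d) (ZMod p)) *
          ((z.2⁻¹ : GL (Fin d) (ZMod p)) : Matrix (Fin d) (Fin d) (ZMod p)) = 1 := z.2.mul_inv
      simp only [h3, Matrix.det_one]
    · rintro ⟨⟨S, v⟩, g⟩ ⟨⟨S', v'⟩, g'⟩ h
      have h3 := tri_inj hd (congrArg Subtype.val h)
      simp only [Prod.mk.injEq] at h3
      obtain ⟨h4, h5, h6⟩ := h3
      have h7 : S = S' := Subtype.ext (coef_inj (hmem _ S.2).2.1 (hmem _ S'.2).2.1 h4)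
      subst h7
      have h8 : v = v' := Subtype.ext h5
      rw [h8, h6]
  calc _ ≤ 2 * Nat.card (Σ S : 𝒮, {v : Fin d → ZMod p // GoodP (coef d S.1) v}) *
        Nat.card (GL (Fin d) (ZMod p)) := Nat.mul_le_mul_right _ h1
    _ = 2 * (Nat.card (Σ S : 𝒮, {v : Fin d → ZMod p // GoodP (coef d S.1) v}) *
        Nat.card (GL (Fin d) (ZMod p))) := mul_assoc _ _ _
    _ ≤ _ := Nat.mul_le_mul_left _ h2

/-- conjugation maps good matrices for `(x', w')` to good matrices for `(x, w)` -/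
theorem count_fixed1 (p d : ℕ) [Fact p.Prime] (x w : Fin d → ZMod p) (hxw : w ⬝ᵥ x ≠ 0) :
    Nat.card {y : Matrix (Fin d) (Fin d) (ZMod p) × (Fin d → ZMod p) × (Fin d → ZMod p) //
      GoodM y.1 y.2.1 y.2.2 ∧ y.1.det = 1} ≤
    p ^ (d + d) * Nat.card {M : Matrix (Fin d) (Fin d) (ZMod p) // GoodM M x w ∧ M.det = 1} := by
  classical
  have : NeZero p := ⟨(Fact.out : p.Prime).ne_zero⟩
  have hcard : Nat.card ((Fin d → ZMod p) × (Fin d → ZMod p)) = p ^ (d + d) := by
    rw [Nat.card_prod, Nat.card_eq_fintype_card, Fintype.card_pi]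
    simp [ZMod.card, pow_add]
  rw [← hcard, ← Nat.card_prod]
  have hex : ∀ x' w' : Fin d → ZMod p, ∃ g : GL (Fin d) (ZMod p), w' ⬝ᵥ x' ≠ 0 →
      ∃ s : ZMod p, s ≠ 0 ∧ (g : Matrix (Fin d) (Fin d) (ZMod p)) *ᵥ x' = s • x ∧
        w ᵥ* (g : Matrix (Fin d) (Fin d) (ZMod p)) = w' := by
    intro x' w'
    by_cases h : w' ⬝ᵥ x' ≠ 0
    · obtain ⟨g, s, h1, h2, h3⟩ := exists_gl x' w' x w h hxw
      exact ⟨g, fun _ => ⟨s, h1, h2, h3⟩⟩
    · exact ⟨1, fun h' => absurd h' h⟩
  choose g hg using hex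
  refine Nat.card_le_card_of_injective (fun y => ((y.1.2.1, y.1.2.2),
    ⟨((g y.1.2.1 y.1.2.2 : GL (Fin d) (ZMod p)) : Matrix (Fin d) (Fin d) (ZMod p)) * y.1.1 *
      (((g y.1.2.1 y.1.2.2)⁻¹ : GL (Fin d) (ZMod p)) : Matrix (Fin d) (Fin d) (ZMod p)), ?_⟩)) ?_
  · obtain ⟨⟨M, x', w'⟩, hgood, hdet⟩ := y
    simp only at hgood hdet ⊢
    have h0 : w' ⬝ᵥ x' ≠ 0 := by
      have := hgood.2 0
      rwa [orb_zero] at this
    obtain ⟨s, hs, h1, h2⟩ := hg x' w' h0
    have hmul : ((g x' w' : GL (Fin d) (ZMod p)) : Matrix (Fin d) (Fin d) (ZMod p)) *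
        (((g x' w')⁻¹ : GL (Fin d) (ZMod p)) : Matrix (Fin d) (Fin d) (ZMod p)) = 1 :=
      (g x' w').mul_inv
    have hw : w' ᵥ* (((g x' w')⁻¹ : GL (Fin d) (ZMod p)) : Matrix (Fin d) (Fin d) (ZMod p)) = w := by
      conv_lhs => rw [← h2]
      rw [Matrix.vecMul_vecMul]
      simp only [h2, hmul, Matrix.vecMul_one]
    have key : ∀ n, s * orb (((g x' w' : GL (Fin d) (ZMod p)) : Matrix (Fin d) (Fin d) (ZMod p)) *
        M * (((g x' w')⁻¹ : GL (Fin d) (ZMod p)) : Matrix (Fin d) (Fin d) (ZMod p))) x w n =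
        orb M x' w' n := by
      intro n
      rw [← orb_conj (g x' w') M x' w' n, h1, hw, orb_smul]
    refine ⟨⟨?_, ?_⟩, ?_⟩
    · intro n
      apply mul_left_cancel₀ hs
      rw [key, key]
      exact hgood.1 n
    · intro n h
      apply hgood.2 n
      rw [← key, h, mul_zero]
    · rw [Matrix.det_mul, Matrix.det_mul, hdet, mul_one, ← Matrix.det_mul, hmul, Matrix.det_one]
  · intro y y' h
    simp only [Prod.mk.injEq] at h
    obtain ⟨⟨h1, h2⟩, h3⟩ := h
    have h4 := congrArg Subtype.val h3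
    simp only at h4
    rw [h1, h2] at h4
    apply Subtype.ext
    refine Prod.ext ?_ (Prod.ext h1 h2)
    have hl : (((g y'.1.2.1 y'.1.2.2)⁻¹ : GL (Fin d) (ZMod p)) : Matrix (Fin d) (Fin d) (ZMod p)) *
        ((g y'.1.2.1 y'.1.2.2 : GL (Fin d) (ZMod p)) : Matrix (Fin d) (Fin d) (ZMod p)) = 1 :=
      (g y'.1.2.1 y'.1.2.2).inv_mul
    have h5 := congrArg (fun N => (((g y'.1.2.1 y'.1.2.2)⁻¹ : GL (Fin d) (ZMod p)) :
      Matrix (Fin d) (Fin d) (ZMod p)) * N *
      ((g y'.1.2.1 y'.1.2.2 : GL (Fin d) (ZMod p)) : Matrix (Fin d) (Fin d) (ZMod p))) h4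
    simp only [Matrix.mul_assoc, hl, Matrix.mul_one] at h5
    rw [← Matrix.mul_assoc, ← Matrix.mul_assoc, hl, Matrix.one_mul, Matrix.one_mul] at h5
    exact h5

/-- `|GL_d| ≥ (p - 1) |SL_d|` -/
theorem card_sl (p d : ℕ) [Fact p.Prime] (hd : 1 ≤ d) :
    Nat.card (Matrix.SpecialLinearGroup (Fin d) (ZMod p)) * (p - 1) ≤ Nat.card (GL (Fin d) (ZMod p)) := by
  classical
  have : NeZero p := ⟨(Fact.out : p.Prime).ne_zero⟩
  have h1 : Nat.card (ZMod p)ˣ = p - 1 := by
    rw [Nat.card_eq_fintype_card, ZMod.card_units]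
  rw [← h1, ← Nat.card_prod]
  let i0 : Fin d := ⟨0, hd⟩
  let D : (ZMod p)ˣ → Matrix (Fin d) (Fin d) (ZMod p) :=
    fun u => Matrix.diagonal (Function.update 1 i0 (u : ZMod p))
  have hD : ∀ u, (D u).det = u := by
    intro u
    rw [Matrix.det_diagonal, Finset.prod_update_of_mem (Finset.mem_univ i0)]
    simp
  have hne : ∀ (A : Matrix.SpecialLinearGroup (Fin d) (ZMod p)) (u : (ZMod p)ˣ), (A.1 * D u).det ≠ 0 := by
    intro A u
    rw [Matrix.det_mul, A.2, one_mul, hD]
    exact u.ne_zero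
  refine Nat.card_le_card_of_injective (fun x : Matrix.SpecialLinearGroup (Fin d) (ZMod p) × (ZMod p)ˣ =>
    Matrix.GeneralLinearGroup.mkOfDetNeZero (x.1.1 * D x.2) (hne x.1 x.2)) ?_
  rintro ⟨A, u⟩ ⟨B, v⟩ h
  have h2 : A.1 * D u = B.1 * D v := congrArg Units.val h
  have h3 : u = v := by
    have h4 := congrArg Matrix.det h2
    rw [Matrix.det_mul, Matrix.det_mul, A.2, B.2, one_mul, one_mul, hD, hD] at h4
    exact Units.ext h4
  subst h3
  have h5 : A.1 = B.1 := by
    have hu : IsUnit (D u) := (Matrix.isUnit_iff_isUnit_det _).2 (by rw [hD]; exact u.isUnit)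
    exact hu.mul_left_injective h2
  rw [Subtype.ext h5]

/-- **the local density** -/
theorem dens1 (e : ℕ) (he : 1 ≤ e) (p : ℕ) (hp : p.Prime) (hpe : 4 * (2 * e * e + e) + 2 ≤ p)
    (x w : Fin (e + 1) → ZMod p) (hxw : w ⬝ᵥ x ≠ 0) :
    Nat.card (Matrix.SpecialLinearGroup (Fin (e + 1)) (ZMod p)) ≤
      4 * (e + 1) ^ e * 2 ^ (2 * e + 1) *
        Nat.card {M : Matrix (Fin (e + 1)) (Fin (e + 1)) (ZMod p) // GoodM M x w ∧ M.det = 1} := by
  have : Fact p.Prime := ⟨hp⟩
  have hee : 1 ≤ e * e := Nat.mul_pos he he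
  have hodd : Odd p := hp.odd_of_ne_two (by omega)
  obtain ⟨T, hT⟩ : ∃ T, 2 * T = p - 1 := by
    obtain ⟨k, hk⟩ := hodd
    exact ⟨k, by omega⟩
  have hTe : 2 * (2 * e * e + e) ≤ T := by omega
  have hT0 : 0 < T := by omega
  obtain ⟨Q, hQ, hQT⟩ := squares p T hT hT0
  have h1 := card_sets p e T he hTe Q hQ hQT
  have h2 := count_sl p (e + 1) T (by omega) hT hT0 Q hQT
  have h3 := count_fixed1 p (e + 1) x w hxw
  have h4 := card_sl p (e + 1) (by omega)
  set s := ((Q.powersetCard (e + 1)).filter fun S => ∏ a ∈ S, a = 1).card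
  set G := Nat.card {M : Matrix (Fin (e + 1)) (Fin (e + 1)) (ZMod p) // GoodM M x w ∧ M.det = 1}
  set n := Nat.card (Matrix.SpecialLinearGroup (Fin (e + 1)) (ZMod p))
  set L := Nat.card (GL (Fin (e + 1)) (ZMod p))
  have hp0 : 0 < p ^ (e + 1) := pow_pos hp.pos _
  have h5 : s * L ≤ 2 * p ^ (e + 1) * G := by
    have h6 : p ^ (e + 1) * (s * L) ≤ p ^ (e + 1) * (2 * p ^ (e + 1) * G) := by
      calc p ^ (e + 1) * (s * L) = s * p ^ (e + 1) * L := by ring
        _ ≤ 2 * _ := h2
        _ ≤ 2 * (p ^ (e + 1 + (e + 1)) * G) := Nat.mul_le_mul_left _ h3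
        _ = p ^ (e + 1) * (2 * p ^ (e + 1) * G) := by rw [pow_add p (e + 1) (e + 1)]; ring
    exact Nat.le_of_mul_le_mul_left h6 hp0
  have h6 : p ^ (e + 1) ≤ 2 ^ (e + 1) * (p - 1) ^ (e + 1) := by
    rw [← mul_pow]
    apply Nat.pow_le_pow_left
    omega
  have h7 : (p - 1) ^ (e + 1) = 2 ^ e * T ^ e * (p - 1) := by
    rw [pow_succ, ← hT, mul_pow]
  have hp1 : 0 < (p - 1) ^ (e + 1) := pow_pos (by omega) _
  refine Nat.le_of_mul_le_mul_left ?_ hp1
  calc (p - 1) ^ (e + 1) * n = 2 ^ e * T ^ e * (n * (p - 1)) := by rw [h7]; ring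
    _ ≤ 2 ^ e * (2 * (e + 1) ^ e * s) * L := by
        exact Nat.mul_le_mul (Nat.mul_le_mul_left _ h1) h4
    _ = 2 ^ e * (2 * (e + 1) ^ e) * (s * L) := by ring
    _ ≤ 2 ^ e * (2 * (e + 1) ^ e) * (2 * p ^ (e + 1) * G) := Nat.mul_le_mul_left _ h5
    _ = 2 ^ e * (2 * (e + 1) ^ e) * 2 * G * p ^ (e + 1) := by ring
    _ ≤ 2 ^ e * (2 * (e + 1) ^ e) * 2 * G * (2 ^ (e + 1) * (p - 1) ^ (e + 1)) := Nat.mul_le_mul_left _ h6
    _ = (p - 1) ^ (e + 1) * (4 * (e + 1) ^ e * 2 ^ (2 * e + 1) * G) := by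
        rw [show 2 * e + 1 = e + (e + 1) by ring, pow_add 2 e (e + 1)]
        ring

end Pool.Agent.N475.RG
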